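import Pool.Agent.H.MP_82502e_co.EndB
import Pool.Agent.H.MP_82502e_co.EndE

set_option autoImplicit false

namespace Pool.Agent.Results.MP_82502e_co.CoarseRise

open Pool.Agent.H.MP_82502e_co

/-- **Rise at multiplicative scale up to a constant times `n²`, for every `n`.** Let `a k` be the
number of labelled posets on `n` points with exactly `k` comparable pairs (written out as in the
frozen statement). If `q ≥ 1`, `i < j`, `j ≥ (1 + 1 / q) i` and `(5 ^ q + 1) j ≤ ⌊n² / 4⌋ + 1`,
then `a i < a j`. -/
theorem result (n : ℕ) (a : ℕ → ℕ)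
    (ha : ∀ k : ℕ, a k =
      ((Finset.univ : Finset (Fin n → Fin n → Bool)).filter
        (fun r => (∀ i : Fin n, r i i = false) ∧
          (∀ i j l : Fin n, r i j = true → r j l = true → r i l = true) ∧
          ((Finset.univ : Finset (Fin n × Fin n)).filter
            (fun p => r p.1 p.2 = true)).card = k)).card) :
    ∀ q i j : ℕ, 1 ≤ q → i < j → (q + 1) * i ≤ q * j → (5 ^ q + 1) * j ≤ n ^ 2 / 4 + 1 →
      a i < a j := by
  have ha' : a = cnt n := funext fun k => by rw [ha k, EndB.count_eq]
  subst ha'
  exact fun q i j hq hij h1 h2 => coarse_rise hq hij h1 h2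

end Pool.Agent.Results.MP_82502e_co.CoarseRise
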