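import Pool.Agent.H.MP_82502e_co.EndB

set_option autoImplicit false

namespace Pool.Agent.Results.MP_82502e_co.FinalFall

open Pool.Agent.H.MP_82502e_co

/-- **The last steps, for every `n`.** Let `a k` be the number of labelled posets on `n` points
with exactly `k` comparable pairs (written out as in the frozen statement), and let
`N = n (n - 1) / 2` be the last index. Then `a (N - j) < a (N - j - 1)` whenever `2 j + 4 ≤ n`. -/
theorem result (n : ℕ) (a : ℕ → ℕ)
    (ha : ∀ k : ℕ, a k =
      ((Finset.univ : Finset (Fin n → Fin n → Bool)).filter
        (fun r => (∀ i : Fin n, r i i = false) ∧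
          (∀ i j l : Fin n, r i j = true → r j l = true → r i l = true) ∧
          ((Finset.univ : Finset (Fin n × Fin n)).filter
            (fun p => r p.1 p.2 = true)).card = k)).card) :
    ∀ j : ℕ, 2 * j + 4 ≤ n →
      a (n * (n - 1) / 2 - j) < a (n * (n - 1) / 2 - j - 1) := by
  have ha' : a = cnt n := funext fun k => by rw [ha k, EndB.count_eq]
  subst ha'
  exact fun j hj => cnt_succ_lt hj

end Pool.Agent.Results.MP_82502e_co.FinalFall
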