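import Pool.Agent.H.MP_82502e_co.EndB
import Pool.Agent.H.MP_82502e_co.EndD

set_option autoImplicit false

namespace Pool.Agent.Results.MP_82502e_co.InitialRise

open Pool.Agent.H.MP_82502e_co

/-- **The first steps, for every `n ≥ 1`.** Let `a k` be the number of labelled posets on `n` points
with exactly `k` comparable pairs (written out as in the frozen statement). Then
`a k < a (k + 1)` whenever `27 n² ≤ (2 n - k)³`, that is for all `k ≤ 2 n - 3 n ^ (2 / 3)`. -/
theorem result (n : ℕ) (hn : 1 ≤ n) (a : ℕ → ℕ)
    (ha : ∀ k : ℕ, a k =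
      ((Finset.univ : Finset (Fin n → Fin n → Bool)).filter
        (fun r => (∀ i : Fin n, r i i = false) ∧
          (∀ i j l : Fin n, r i j = true → r j l = true → r i l = true) ∧
          ((Finset.univ : Finset (Fin n × Fin n)).filter
            (fun p => r p.1 p.2 = true)).card = k)).card) :
    ∀ k : ℕ, 27 * n ^ 2 ≤ (2 * n - k) ^ 3 → a k < a (k + 1) := by
  have ha' : a = cnt n := funext fun k => by rw [ha k, EndB.count_eq]
  subst ha'
  exact fun k hk => cnt_lt_succ2 hn hk

end Pool.Agent.Results.MP_82502e_co.InitialRise
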