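import Pool.Agent.H.MP_82502e_co.Final

set_option autoImplicit false

namespace Pool.Agent.Results.MP_82502e_co.Unimodal

open Pool.Agent.H.MP_82502e_co

/-- The count of the frozen statement is `cnt`: `r ↦ {p | r p.1 p.2}` is a bijection. -/
theorem count_eq (n k : ℕ) :
    ((Finset.univ : Finset (Fin n → Fin n → Bool)).filter
      (fun r => (∀ i : Fin n, r i i = false) ∧
        (∀ i j l : Fin n, r i j = true → r j l = true → r i l = true) ∧
        ((Finset.univ : Finset (Fin n × Fin n)).filter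
          (fun p => r p.1 p.2 = true)).card = k)).card = cnt n k := by
  classical
  unfold cnt PO
  refine Finset.card_bij'
    (fun r _ => (Finset.univ : Finset (Fin n × Fin n)).filter (fun p => r p.1 p.2 = true))
    (fun S _ => fun i j => decide ((i, j) ∈ S)) ?_ ?_ ?_ ?_
  · intro r hr
    rw [Finset.mem_filter] at hr ⊢
    obtain ⟨-, h1, h2, h3⟩ := hr
    refine ⟨Finset.mem_univ _, ⟨fun i => ?_, fun i j l hij hjl => ?_⟩, h3⟩
    · simp [h1 i]
    · rw [Finset.mem_filter] at hij hjl ⊢
      exact ⟨Finset.mem_univ _, h2 i j l hij.2 hjl.2⟩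
  · intro S hS
    rw [Finset.mem_filter] at hS ⊢
    obtain ⟨-, ⟨h1, h2⟩, h3⟩ := hS
    refine ⟨Finset.mem_univ _, fun i => ?_, fun i j l hij hjl => ?_, ?_⟩
    · simp [h1 i]
    · simp only [decide_eq_true_eq] at hij hjl ⊢
      exact h2 i j l hij hjl
    · rw [← h3]
      congr 1
      ext p
      simp
  · intro r hr
    funext i j
    simp
  · intro S hS
    ext p
    simp

/-- **Q1 for all sufficiently large `n`.** There are `C` and `n₀` such that for all `n ≥ n₀` the
numbers `a k` of labelled posets on `n` points with `k` comparable pairs are strictly increasing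
up to some index `k₀` with `|k₀ - 3 n² / 16| ≤ C n` and strictly decreasing from `k₀ + 1` on, up to
the last index `n (n - 1) / 2`; hence the sequence is unimodal (the conclusion of the frozen
statement). -/
theorem result : ∃ (C : ℝ) (n₀ : ℕ), ∀ n ≥ n₀, ∀ a : ℕ → ℕ,
    (∀ k : ℕ, a k =
      ((Finset.univ : Finset (Fin n → Fin n → Bool)).filter
        (fun r => (∀ i : Fin n, r i i = false) ∧
          (∀ i j l : Fin n, r i j = true → r j l = true → r i l = true) ∧
          ((Finset.univ : Finset (Fin n × Fin n)).filter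
            (fun p => r p.1 p.2 = true)).card = k)).card) →
    (∃ m : ℕ, (∀ i j : ℕ, i ≤ j → j ≤ m → a i ≤ a j) ∧
      (∀ i j : ℕ, m ≤ i → i ≤ j → a j ≤ a i)) ∧
    ∃ k₀ : ℕ, |(k₀ : ℝ) - 3 / 16 * (n : ℝ) ^ 2| ≤ C * n ∧
      (∀ k : ℕ, k < k₀ → a k < a (k + 1)) ∧
      (∀ k : ℕ, k₀ < k → 2 * (k + 1) ≤ n * (n - 1) → a (k + 1) < a k) := by
  obtain ⟨C, n0, h⟩ := peak
  refine ⟨C, n0, fun n hn a ha => ?_⟩
  have ha' : a = cnt n := funext fun k => by rw [ha k, count_eq]
  subst ha'
  obtain ⟨k0, h1, h2, h3⟩ := h n hn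
  exact ⟨unimodal_of_peak h2 h3, k0, h1, h2, h3⟩

end Pool.Agent.Results.MP_82502e_co.Unimodal
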